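import Pool.Agent.BOG.Stmts

/-!
# MP_9a4f8a_co, row EDB: the dimension of `EE` for large degrees
-/

set_option autoImplicit false

namespace Pool.Agent.BOG.H28

open Polynomial Finset Function
open Pool.Agent.BOG

universe v

variable {K : Type v} [Field K] {n : ℕ}

/-- the modulus -/
noncomputable def QQ (m : Fin n → K) (ν : ℕ) : K[X] := ∏ P, (X - C (m P)) ^ ν

theorem QQ_monic (m : Fin n → K) (ν : ℕ) : (QQ m ν).Monic :=
  monic_prod_of_monic _ _ fun P _ => (monic_X_sub_C (m P)).pow ν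

theorem QQ_deg (m : Fin n → K) (ν : ℕ) : (QQ m ν).natDegree = n * ν := by
  unfold QQ
  rw [natDegree_prod_of_monic _ _ fun P _ => (monic_X_sub_C (m P)).pow ν]
  simp [natDegree_pow]

theorem cop {m : Fin n → K} (hm : Function.Injective m) (ν : ℕ) :
    Pairwise (IsCoprime on fun P : Fin n => (X - C (m P)) ^ ν) := by
  intro P Q hPQ
  exact (pairwise_coprime_X_sub_C hm hPQ).pow

theorem crt {m : Fin n → K} (hm : Function.Injective m) (ν : ℕ) (a : Fin n → K) :
    ∃ μ : K[X], ∀ P, (X - C (m P)) ^ ν ∣ μ - C (a P) := by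
  obtain ⟨r, hr⟩ := Ideal.exists_forall_sub_mem_ideal
    (I := fun P : Fin n => Ideal.span {(X - C (m P)) ^ ν})
    (fun P Q hPQ => (Ideal.isCoprime_span_singleton_iff _ _).2 (cop hm ν hPQ))
    (fun P => C (a P))
  exact ⟨r, fun P => Ideal.mem_span_singleton.1 (hr P)⟩

/-- the parametrization -/
noncomputable def par (m : Fin n → K) (ν j : ℕ) (μ γ : K[X]) :
    (degreeLT K (j - n * ν) × degreeLT K j × degreeLT K j) →ₗ[K] (Fin 3 → K[X]) where
  toFun x := ![QQ m ν * (x.1 : K[X]) + (μ * (x.2.1 : K[X]) + γ * (x.2.2 : K[X])) %ₘ QQ m ν,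
    (x.2.1 : K[X]), (x.2.2 : K[X])]
  map_add' x y := by
    funext i
    fin_cases i
    · obtain ⟨⟨x1, _⟩, ⟨x2, _⟩, ⟨x3, _⟩⟩ := x
      obtain ⟨⟨y1, _⟩, ⟨y2, _⟩, ⟨y3, _⟩⟩ := y
      show QQ m ν * (x1 + y1) + (μ * (x2 + y2) + γ * (x3 + y3)) %ₘ QQ m ν =
        (QQ m ν * x1 + (μ * x2 + γ * x3) %ₘ QQ m ν) +
          (QQ m ν * y1 + (μ * y2 + γ * y3) %ₘ QQ m ν)
      have : μ * (x2 + y2) + γ * (x3 + y3) = (μ * x2 + γ * x3) + (μ * y2 + γ * y3) := by ring
      rw [this, add_modByMonic]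
      ring
    · rfl
    · rfl
  map_smul' r x := by
    funext i
    fin_cases i
    · obtain ⟨⟨x1, _⟩, ⟨x2, _⟩, ⟨x3, _⟩⟩ := x
      show QQ m ν * (r • x1) + (μ * (r • x2) + γ * (r • x3)) %ₘ QQ m ν =
        r • (QQ m ν * x1 + (μ * x2 + γ * x3) %ₘ QQ m ν)
      have : μ * (r • x2) + γ * (r • x3) = r • (μ * x2 + γ * x3) := by
        simp only [smul_eq_C_mul]
        ring
      rw [this, smul_modByMonic, smul_add, mul_smul_comm]
    · rfl
    · rfl

theorem par_inj (m : Fin n → K) (ν j : ℕ) (μ γ : K[X]) :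
    Function.Injective (par m ν j μ γ) := by
  rw [← LinearMap.ker_eq_bot, LinearMap.ker_eq_bot']
  rintro ⟨⟨q, hq⟩, ⟨a, ha⟩, ⟨b, hb⟩⟩ h
  have h0 : QQ m ν * q + (μ * a + γ * b) %ₘ QQ m ν = 0 := congrFun h 0
  have h1 : a = 0 := congrFun h 1
  have h2 : b = 0 := congrFun h 2
  rw [h1, h2, mul_zero, mul_zero, add_zero, zero_modByMonic, add_zero] at h0
  have h3 : q = 0 := by
    rcases mul_eq_zero.1 h0 with h | h
    · exact absurd h (QQ_monic m ν).ne_zero
    · exact h
  refine Prod.ext (Subtype.ext h3) (Prod.ext (Subtype.ext h1) (Subtype.ext h2))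

theorem par_range {m : Fin n → K} (c : Fin n → K) (hm : Function.Injective m) (ν j : ℕ)
    (hj : n * ν ≤ j) (μ γ : K[X]) (hμ : ∀ P, (X - C (m P)) ^ ν ∣ μ - C (m P))
    (hγ : ∀ P, (X - C (m P)) ^ ν ∣ γ - C (c P)) :
    LinearMap.range (par m ν j μ γ) = EE m c ν j := by
  have hQ := QQ_monic m ν
  have hQd : (QQ m ν).degree = ((n * ν : ℕ) : WithBot ℕ) := by
    rw [degree_eq_natDegree hQ.ne_zero, QQ_deg]
  have hPQ : ∀ P, (X - C (m P)) ^ ν ∣ QQ m ν := fun P =>
    Finset.dvd_prod_of_mem _ (Finset.mem_univ P)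
  apply le_antisymm
  · rintro θ ⟨⟨⟨q, hq'⟩, ⟨a, ha⟩, ⟨b, hb⟩⟩, rfl⟩
    refine ⟨?_, fun P => ?_⟩
    · have hmod : ((μ * a + γ * b) %ₘ QQ m ν) ∈ degreeLT K j := by
        rw [mem_degreeLT]
        refine (degree_modByMonic_lt _ hQ).trans_le ?_
        rw [hQd]
        exact_mod_cast hj
      intro i
      fin_cases i
      · show QQ m ν * q + (μ * a + γ * b) %ₘ QQ m ν ∈ degreeLT K j
        refine Submodule.add_mem _ ?_ hmod
        by_cases hq : q = 0
        · rw [hq, mul_zero]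
          exact Submodule.zero_mem _
        · have h1 := mem_degreeLT.1 hq'
          rw [degree_eq_natDegree hq] at h1
          have h2 : q.natDegree < j - n * ν := by exact_mod_cast h1
          rw [mem_degreeLT, degree_mul, hQd, degree_eq_natDegree hq]
          have h3 : n * ν + q.natDegree < j := by omega
          exact_mod_cast h3
      · exact ha
      · exact hb
    · show (X - C (m P)) ^ ν ∣ (QQ m ν * q + (μ * a + γ * b) %ₘ QQ m ν) -
        C (m P) * a - C (c P) * b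
      have h1 : (QQ m ν * q + (μ * a + γ * b) %ₘ QQ m ν) - C (m P) * a - C (c P) * b =
          QQ m ν * (q - (μ * a + γ * b) /ₘ QQ m ν) + (μ - C (m P)) * a + (γ - C (c P)) * b := by
        have h2 := modByMonic_add_div (μ * a + γ * b) (QQ m ν)
        linear_combination h2
      rw [h1]
      exact dvd_add (dvd_add ((hPQ P).mul_right _) ((hμ P).mul_right _)) ((hγ P).mul_right _)
  · intro θ hθ
    obtain ⟨hd, hdvd⟩ := hθ
    have h1 : QQ m ν ∣ θ 0 - μ * θ 1 - γ * θ 2 := by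
      refine Finset.prod_dvd_of_coprime ((cop hm ν).set_pairwise _) fun P _ => ?_
      have h2 : θ 0 - μ * θ 1 - γ * θ 2 = dot1 (m P) (c P) θ - (μ - C (m P)) * θ 1 -
          (γ - C (c P)) * θ 2 := by
        unfold dot1
        ring
      rw [h2]
      exact dvd_sub (dvd_sub (hdvd P) ((hμ P).mul_right _)) ((hγ P).mul_right _)
    obtain ⟨q, hq⟩ := h1
    have h3 := modByMonic_add_div (μ * θ 1 + γ * θ 2) (QQ m ν)
    set r := (μ * θ 1 + γ * θ 2) %ₘ QQ m ν with hr
    set q' := q + (μ * θ 1 + γ * θ 2) /ₘ QQ m ν with hq'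
    have h4 : θ 0 = QQ m ν * q' + r := by
      rw [hq']
      linear_combination hq - h3
    have hrd : r ∈ degreeLT K j := by
      rw [mem_degreeLT]
      refine (degree_modByMonic_lt _ hQ).trans_le ?_
      rw [hQd]
      exact_mod_cast hj
    have h5 : q' ∈ degreeLT K (j - n * ν) := by
      have h6 : QQ m ν * q' ∈ degreeLT K j := by
        have : QQ m ν * q' = θ 0 - r := by rw [h4]; ring
        rw [this]
        exact Submodule.sub_mem _ (hd 0) hrd
      by_cases h0 : q' = 0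
      · rw [h0]
        exact Submodule.zero_mem _
      · rw [mem_degreeLT, degree_mul, hQd, degree_eq_natDegree h0] at h6
        rw [mem_degreeLT, degree_eq_natDegree h0]
        have h7 : n * ν + q'.natDegree < j := by exact_mod_cast h6
        have h8 : q'.natDegree < j - n * ν := by omega
        exact_mod_cast h8
    refine ⟨(⟨q', h5⟩, ⟨θ 1, hd 1⟩, ⟨θ 2, hd 2⟩), ?_⟩
    funext i
    fin_cases i
    · exact h4.symm
    · rfl
    · rfl

/-- Row EDB -/
theorem edb (_h : FdmStmt.{v}) : EdbStmt.{v} := by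
  intro K _ n m c ν hm j hj
  obtain ⟨μ, hμ⟩ := crt hm ν m
  obtain ⟨γ, hγ⟩ := crt hm ν c
  have h1 := LinearMap.finrank_range_of_inj (par_inj m ν j μ γ)
  rw [par_range c hm ν j hj μ γ hμ hγ] at h1
  have h2 : ∀ i, Module.finrank K (degreeLT K i) = i := fun i => by
    rw [(degreeLTEquiv K i).finrank_eq]
    simp
  rw [h1, Module.finrank_prod, Module.finrank_prod, h2, h2]
  omega

end Pool.Agent.BOG.H28
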